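import Pool.Agent.TMX.Stmts4

set_option autoImplicit false

namespace Pool.Agent.TMX.H70

open Finset
open Pool.Agent.TMX
open Pool.Agent.Helper51_Max (I IsMax)
open Pool.Agent.Helper37_EM (var)

/-- Reflection of a sum over an interval. -/
theorem chR_sum (N : ℕ) (f : ℕ → ℝ) (a b : ℕ) (hab : a ≤ b) (hb : b ≤ N) :
    ∑ i ∈ Icc (N - b) (N - a), f (N - i) = ∑ i ∈ Icc a b, f i := by
  refine Finset.sum_nbij' (fun i => N - i) (fun i => N - i) ?_ ?_ ?_ ?_ ?_
  · intro i hi
    rw [Finset.mem_Icc] at hi ⊢
    omega
  · intro i hi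
    rw [Finset.mem_Icc] at hi ⊢
    omega
  · intro i hi
    rw [Finset.mem_Icc] at hi
    show N - (N - i) = i
    omega
  · intro i hi
    rw [Finset.mem_Icc] at hi
    show N - (N - i) = i
    omega
  · intro i hi
    rfl

/-- Reflection of the inequalities of a part. -/
theorem chR_VG (N : ℕ) (g : ℕ → ℝ) (p p' : ℕ) (Q : ℝ) (hpp : p ≤ p') (hp : p' ≤ N)
    (h : VG N g p p' Q) : VG N (fun i => g (N - i)) (N - p') (N - p) Q := by
  constructor
  · intro u hu
    refine h.i u (fun i h1 h2 => ?_)
    have h3 := hu (N - i) (by omega) (by omega)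
    have e : N - (N - i) = i := by omega
    simpa only [e] using h3
  · intro u q hu0 h1 h2 hu
    have h3 := h.ii' u (N - q) hu0 (by omega) (fun i hi1 hi2 => by
      have h4 := hu (N - i) (by omega)
      have e : N - (N - i) = i := by omega
      simpa only [e] using h4)
    have e := chR_sum N (fun i => g i - u) (N - q) p (by omega) (by omega)
    have e' : N - (N - q) = q := by omega
    rw [e'] at e
    rw [← e] at h3
    exact h3
  · intro u q hu0 h1 hu
    have h3 := h.ii u (N - q) hu0 (by omega) (by omega) (fun i hi1 => by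
      have h4 := hu (N - i) (by omega) (by omega)
      have e : N - (N - i) = i := by omega
      simpa only [e] using h4)
    have e := chR_sum N (fun i => g i - u) p' (N - q) (by omega) (by omega)
    have e' : N - (N - q) = q := by omega
    rw [e'] at e
    rw [← e] at h3
    exact h3
  · have h3 := h.iii
    have e := Finset.sum_range_reflect g (N + 1)
    have e' : ∑ i ∈ range (N + 1), g (N - i) = ∑ i ∈ range (N + 1), g i := by
      rw [← e]
      refine Finset.sum_congr rfl (fun i _ => ?_)
      have : N + 1 - 1 - i = N - i := by omega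
      rw [this]
    show ∑ i ∈ range (N + 1), g (N - i) ≤ _
    rw [e']
    exact h3

/-- Row ChR. -/
theorem chR : ChR := by
  intro hB N g p q T hq hch
  obtain ⟨-, hB2, -, -, -⟩ := hB N g
  obtain ⟨hC1, -, -, -, hC5⟩ := hB N (fun i => g (N - i))
  induction hch with
  | nil p => exact Ch.nil _
  | cons p p' q Q T hlt hV hch ih =>
    have hpq := hB2 _ _ _ hch
    have h1 := ih hq
    have h2 := hC5 (N - p') (N - p) Q (by omega) (chR_VG N g p p' Q hlt.le (by omega) hV)
    have h3 := hC1 _ _ _ _ _ h1 h2
    have e1 : N - (N - p') = p' := by omega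
    have e2 : N - (N - p) = p := by omega
    simp only [e1, e2] at h3
    have e3 : T + (g p' + g p - 2 * Q) = (g p + g p' - 2 * Q) + T := by ring
    rw [e3] at h3
    exact h3

end Pool.Agent.TMX.H70

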