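import Pool.Agent.TMX.Stmts2

set_option autoImplicit false

namespace Pool.Agent.TMX.H70

open Finset
open Pool.Agent.TMX
open Pool.Agent.Helper51_Max (I IsMax card_I)
open Pool.Agent.Helper37_EM (var)

/-- Row LastK. -/
theorem lastK : LastK := by
  intro N g M hM y z z' r G hmono k hk
  have hyz := G.yz
  have hrz := G.rz
  have hrN := G.rN
  have hy := G.hy
  have hkr : k ≤ r := by omega
  have hopt := G.opt
  have hball : I N (z - k) (r - k) = Icc (z - r) (z + r - 2 * k) := by
    unfold Pool.Agent.Helper51_Max.I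
    congr 1
    · omega
    · omega
  have hballz : I N z r = Icc (z - r) (z + r) := by
    unfold Pool.Agent.Helper51_Max.I
    congr 1
    omega
  have hle := hM.le (z - k) (by omega) (r - k)
  rw [hball] at hle
  rw [hballz] at hopt
  have hc1 : ((Icc (z - r) (z + r - 2 * k)).card : ℝ) = 2 * (r : ℝ) + 1 - 2 * (k : ℝ) := by
    rw [Nat.card_Icc, show z + r - 2 * k + 1 - (z - r) = 2 * r + 1 - 2 * k by omega,
      Nat.cast_sub (by omega)]
    push_cast
    ring
  have hc2 : ((Icc (z - r) (z + r)).card : ℝ) = 2 * (r : ℝ) + 1 := by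
    rw [Nat.card_Icc, show z + r + 1 - (z - r) = 2 * r + 1 by omega]
    push_cast
    ring
  rw [hc1] at hle
  rw [hc2] at hopt
  have hsplit : ∑ i ∈ Icc (z - r) (z + r), g i =
      ∑ i ∈ Icc (z - r) (z + r - 2 * k), g i + ∑ i ∈ Ioc (z + r - 2 * k) (z + r), g i := by
    rw [← Finset.sum_union]
    · congr 1
      ext j
      simp only [mem_Icc, mem_union, mem_Ioc]
      omega
    · rw [Finset.disjoint_left]
      intro j h1 h2
      rw [mem_Icc] at h1
      rw [mem_Ioc] at h2
      omega
  have hMk : M (z - k) ≤ M z := hmono (z - k) (by omega) (by omega)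
  have hnn : (0 : ℝ) ≤ 2 * (r : ℝ) + 1 - 2 * (k : ℝ) := by
    have : (k : ℝ) ≤ r := by exact_mod_cast hkr
    linarith
  have hmul := mul_le_mul_of_nonneg_right hMk hnn
  nlinarith [hle, hopt, hsplit, hmul]

end Pool.Agent.TMX.H70

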