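import Pool.Agent.TMX.Stmts2

set_option autoImplicit false

namespace Pool.Agent.TMX.H70

open Finset
open Pool.Agent.TMX
open Pool.Agent.Helper51_Max (I IsMax)
open Pool.Agent.Helper37_EM (var)

/-- A minimum point on an interval. -/
theorem al_min (g : ℕ → ℝ) (a b : ℕ) (h : a ≤ b) :
    ∃ m, a ≤ m ∧ m ≤ b ∧ ∀ j, a ≤ j → j ≤ b → g m ≤ g j := by
  obtain ⟨m, hm, hmin⟩ := Finset.exists_min_image (Icc a b) g ⟨a, Finset.mem_Icc.2 ⟨le_rfl, h⟩⟩
  rw [Finset.mem_Icc] at hm
  exact ⟨m, hm.1, hm.2, fun j h1 h2 => hmin j (Finset.mem_Icc.2 ⟨h1, h2⟩)⟩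

/-- Row AL. -/
theorem al : AL := by
  intro hR hMS hV hFB N g M hM i₀ i c p₁ y z z' r p₃ G hp1y hzp3 hp3N hp3i hi0N hg0 hic hcp1
    hMzi hc1 hc2 hgcy hgcz hCmin
  obtain ⟨-, hR2, hR3, hR4, -⟩ := hR N g M hM
  obtain ⟨hS1, -, hS3⟩ := hMS N g M hM
  obtain ⟨-, hV2⟩ := hV N g
  have hyz := G.yz
  have hzz := G.zz
  have hgy : g y ≤ M y := Pool.Agent.Helper37_EM.g_le hM (by omega)
  have hgz' : g z' ≤ M z' := Pool.Agent.Helper37_EM.g_le hM (by omega)
  have hg00 : g 0 ≤ M 0 := Pool.Agent.Helper37_EM.g_le hM (by omega)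
  obtain ⟨α, -, hαi, hα⟩ := al_min g 0 i (Nat.zero_le _)
  obtain ⟨w₁, hiw, hwp, hw1⟩ := al_min g i p₁ (by omega)
  obtain ⟨w, hpw, hwp3, hw⟩ := al_min g p₁ p₃ (by omega)
  have hvc : g w₁ ≤ g c := hw1 c (by omega) (by omega)
  have huy : g w ≤ M y := (hw y (by omega) (by omega)).trans hgy
  have huz : g w ≤ M z' := (hw z' (by omega) (by omega)).trans hgz'
  have hvy : g w₁ ≤ M y := hvc.trans hgcy
  have hvz : g w₁ ≤ M z' := hvc.trans hgcz
  have ha0 : g α ≤ M 0 := (hα 0 le_rfl (Nat.zero_le _)).trans hg00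
  have hCv : ∀ j, 2 * z' ≤ j + z + r → j + z ≤ 2 * y + r → g w₁ ≤ g j :=
    fun j h1 h2 => hvc.trans (hCmin j h1 h2)
  have hvMz : g w₁ ≤ M z := hvz.trans G.Mz.le
  have hnn := hM.nonneg
  have nα := hnn α
  have nw1 := hnn w₁
  have nw := hnn w
  have np1 := hnn p₁
  have np3 := hnn p₃
  have ni := hnn i
  -- the variation
  have hW := hV2 α i w₁ p₁ w p₃ i₀ hαi hiw hwp hpw hwp3 hp3i hi0N
  rw [hg0] at hW
  have hN0 : (0 : ℝ) ≤ (N : ℝ) := Nat.cast_nonneg N
  have hNW := mul_le_mul_of_nonneg_left hW hN0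
  -- the mean
  have hSN := hS1 N le_rfl
  have hSS := hS3 i p₁ p₃ (by omega) (by omega) hp3N
  -- nonnegative products
  have hn : (0 : ℝ) ≤ (N : ℝ) + 1 := by linarith
  have e1 : 0 ≤ ((N : ℝ) + 1) * (g i - M z) := mul_nonneg hn (by linarith)
  have e2 : 0 ≤ ((N : ℝ) + 1) * (M y - g w) := mul_nonneg hn (by linarith)
  have e3 : 0 ≤ ((N : ℝ) + 1) * (M z' - g w₁) := mul_nonneg hn (by linarith)
  have e4 : 0 ≤ ((N : ℝ) + 1) * (M 0 - g α) := mul_nonneg hn (by linarith)
  -- the key inequality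
  have key : g i + g p₁ + g p₃ - 2 * g w - 2 * g w₁ - g α ≤
      2 * (((N : ℝ) + 1) * (g i - M z)) + 2 * (((N : ℝ) + 1) * (M y - g w)) +
      2 * (((N : ℝ) + 1) * (M z' - g w₁)) + ((N : ℝ) + 1) * (M 0 - g α) := by
    have hFBv := hFB N g M hM y z z' r (g w₁) p₁ G hvMz hCv (by omega)
      (by have := G.hy; omega)
    have hR2i := hR2 0 i (g α) (Nat.zero_le _) (by omega) (fun j hj => hα j (Nat.zero_le _) hj)
    by_cases h1 : g α ≤ g w ∧ g α ≤ g w₁
    · have h := hR4 0 i p₁ p₃ (g α) (Nat.zero_le _) (by omega) (by omega) hp3N (by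
        intro j hj
        rcases Nat.lt_or_ge i j with h | h
        · rcases Nat.lt_or_ge p₁ j with h' | h'
          · exact h1.1.trans (hw j h'.le hj)
          · exact h1.2.trans (hw1 j h.le h')
        · exact hα j (Nat.zero_le _) h)
      linarith [h1.1, h1.2]
    · by_cases h2 : g w₁ < g α ∧ g w₁ ≤ g w
      · have h := hR2 z' p₃ (g w₁) hzp3.le hp3N (by
          intro j hj
          rcases Nat.lt_or_ge i j with h | h
          · rcases Nat.lt_or_ge p₁ j with h' | h'
            · exact h2.2.trans (hw j h'.le hj)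
            · exact hw1 j h.le h'
          · exact h2.1.le.trans (hα j (Nat.zero_le _) h))
        linarith
      · have huv : g w < g w₁ := by
          by_contra hcon
          rw [not_lt] at hcon
          rcases lt_or_ge (g w₁) (g α) with h | h
          · exact h2 ⟨h, hcon⟩
          · exact h1 ⟨h.trans hcon, h⟩
        have hua : g w < g α := by
          by_contra hcon
          rw [not_lt] at hcon
          exact h1 ⟨hcon, hcon.trans huv.le⟩
        have h := hR2 y p₃ (g w) (by omega) hp3N (by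
          intro j hj
          rcases Nat.lt_or_ge i j with h | h
          · rcases Nat.lt_or_ge p₁ j with h' | h'
            · exact hw j h'.le hj
            · exact huv.le.trans (hw1 j h.le h')
          · exact hua.le.trans (hα j (Nat.zero_le _) h))
        rcases lt_or_ge (g w₁) (g α) with h3 | h3
        · linarith
        · have h4 := hR3 0 i p₁ (g α) (Nat.zero_le _) (by omega) (by omega) (by
            intro j hj
            rcases Nat.lt_or_ge i j with h | h
            · exact h3.trans (hw1 j h.le hj)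
            · exact hα j (Nat.zero_le _) h)
          linarith
  linarith [key, hSN, hSS, hNW]

end Pool.Agent.TMX.H70

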