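import Pool.Agent.TMX.Stmts2

set_option autoImplicit false

namespace Pool.Agent.TMX.H70

open Finset
open Pool.Agent.TMX
open Pool.Agent.Helper51_Max (I IsMax)
open Pool.Agent.Helper37_EM (var var_add abs_le_var)

/-- Row One. -/
theorem one : One := by
  intro hK N g M h x hx
  obtain ⟨κ, hκ, hmax⟩ := Finset.exists_max_image (Icc 0 N) g ⟨0, by simp⟩
  rw [mem_Icc] at hκ
  have hκN : κ ≤ N := hκ.2
  obtain ⟨i₁, hi₁, hmin₁⟩ := Finset.exists_min_image (Icc 0 κ) g ⟨0, by simp⟩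
  obtain ⟨i₂, hi₂, hmin₂⟩ := Finset.exists_min_image (Icc κ N) g ⟨κ, by simp [hκN]⟩
  rw [mem_Icc] at hi₁ hi₂
  obtain ⟨k1, k2, -, k4⟩ := hK N g M h
  have hm : M x ≤ g κ := k4 x (g κ) hx (fun i hi => hmax i (by simp [hi]))
  have e1 := k1 κ (g i₁) hκN (fun i hi => hmin₁ i (by simp [hi]))
  have e2 := k2 κ (g i₂) hκN (fun i hi hi' => hmin₂ i (by rw [mem_Icc]; exact ⟨hi, hi'⟩))
  have w1 : var g 0 N = var g 0 i₁ + var g i₁ N := (var_add (Nat.zero_le _) (hi₁.2.trans hκN))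
  have w2 : var g i₁ N = var g i₁ κ + var g κ N := (var_add hi₁.2 hκN)
  have w3 : var g κ N = var g κ i₂ + var g i₂ N := (var_add hi₂.1 hi₂.2)
  have a1 := abs_le_var g hi₁.2
  have a2 := abs_le_var g hi₂.1
  have a3 := (abs_nonneg _).trans (abs_le_var g (Nat.zero_le i₁))
  have a4 := (abs_nonneg _).trans (abs_le_var g hi₂.2)
  have b1 := neg_abs_le (g i₁ - g κ)
  have b2 := le_abs_self (g κ - g i₂)
  have hN : (0 : ℝ) ≤ N := Nat.cast_nonneg N
  have c1 : 2 * g κ - g i₁ - g i₂ ≤ var g 0 N := by linarith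
  have c2 := mul_le_mul_of_nonneg_left c1 hN
  have c3 : ((N : ℝ) + 1) * M x ≤ ((N : ℝ) + 1) * g κ :=
    mul_le_mul_of_nonneg_left hm (by linarith)
  linarith

end Pool.Agent.TMX.H70

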