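import Pool.Agent.TMX.Stmts3

set_option autoImplicit false

namespace Pool.Agent.TMX.H70

open Finset
open Pool.Agent.TMX
open Pool.Agent.Helper51_Max (I IsMax)
open Pool.Agent.Helper37_EM (var)

/-- A maximum point on an interval. -/
theorem small_max (g : ℕ → ℝ) (a b : ℕ) (h : a ≤ b) :
    ∃ m, a ≤ m ∧ m ≤ b ∧ ∀ j, a ≤ j → j ≤ b → g j ≤ g m := by
  obtain ⟨m, hm, hmax⟩ := Finset.exists_max_image (Icc a b) g ⟨a, Finset.mem_Icc.2 ⟨le_rfl, h⟩⟩
  rw [Finset.mem_Icc] at hm
  exact ⟨m, hm.1, hm.2, fun j h1 h2 => hmax j (Finset.mem_Icc.2 ⟨h1, h2⟩)⟩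

/-- The interior maximum point. -/
theorem small_int (M : ℕ → ℝ) (a b c : ℕ) (hab : a < b) (hbc : b < c) (h1 : M a < M b)
    (h2 : M c < M b) :
    ∃ m, a < m ∧ m < c ∧ M a < M m ∧ M c < M m ∧ ∀ j, a ≤ j → j ≤ c → M j ≤ M m := by
  obtain ⟨m, hm1, hm2, hm3⟩ := small_max M a c (by omega)
  have hb := hm3 b hab.le hbc.le
  have ha' : M a < M m := lt_of_lt_of_le h1 hb
  have hc' : M c < M m := lt_of_lt_of_le h2 hb
  refine ⟨m, ?_, ?_, ha', hc', hm3⟩
  · rcases Nat.lt_or_ge a m with h | h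
    · exact h
    · have : m = a := by omega
      rw [this] at ha'
      exact absurd ha' (lt_irrefl _)
  · rcases Nat.lt_or_ge m c with h | h
    · exact h
    · have : m = c := by omega
      rw [this] at hc'
      exact absurd hc' (lt_irrefl _)

/-- Row Small. -/
theorem small : Small := by
  intro hT hG hB N g M hN hM
  constructor
  · intro p p' hgap a b c d e hpa hab hbc hcd hde hep h1 h2 h3 h4
    have hp'N : p' ≤ N := hgap.right.1
    obtain ⟨b', hab', hbc', hb1, hb2, hb3⟩ := small_int M a b c hab hbc h1 h2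
    obtain ⟨d', hcd', hde', hd1, hd2, hd3⟩ := small_int M c d e hcd hde h3 h4
    have gb := hB N g M hM p p' a b' c hgap hpa hab' hbc' (by omega) hb1 hb2 hb3
    have gd := hB N g M hM p p' c d' e hgap (by omega) hcd' hde' hep hd1 hd2 hd3
    obtain ⟨r₁, hr₁⟩ := hM.attained b' (by omega)
    obtain ⟨r₂, hr₂⟩ := hM.attained d' (by omega)
    obtain ⟨G₁, -, j, hj1, hj2, hj3, hj4⟩ := hG hT N g M hM a b' c r₁ hab' hbc' (by omega) hb1 hb2 hr₁ gb
    obtain ⟨G₂, ⟨i, hi1, hi2, hi3, hi4⟩, -⟩ := hG hT N g M hM c d' e r₂ hcd' hde' (by omega) hd1 hd2 hr₂ gd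
    have hr1z := G₁.rz
    have hr1N := G₁.rN
    have hr2z := G₂.rz
    have hr2N := G₂.rN
    rcases le_or_gt (M d') (M b') with h | h
    · have hje : e < j := by
        by_contra hc
        have := gd j (by omega) (by omega)
        linarith
      omega
    · have hia : i < a := by
        by_contra hc
        have := gb i (by omega) (by omega)
        linarith
      omega
  · intro p p' y z z' r hgap hGeo hpy hzp _ _ _ _ _ _ i hi1 hi2
    have h1 := hGeo.yz
    have h2 := hGeo.zz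
    have h3 := hGeo.rz
    have h4 := hGeo.rN
    exact ⟨i, by omega, by omega, le_rfl⟩

end Pool.Agent.TMX.H70

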